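import Pool.Agent.Helper49.QP.Def
import Pool.Agent.Helper49.FL.Comp
import Pool.Agent.Helper49.RD.Side

/-!
Project OZ (MP_7e0861_pr), geometry: the contours of a configuration with `k + 2` colours under the
Dobrushin boundary condition.

The broken edges of the two-colour configuration `ω x = 0` are broken for `ω`, so its unbounded contour is
contained in the unbounded contour of `ω`.
-/

open Set

namespace Pool.Helper17.OZG

open Pool.Agent.Helper49.DL hiding Lam
open Pool.Agent.Helper49.FL hiding dob walls Gam Gp path comp_eq mem_gam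
open Pool.Agent.Helper49.QP (dob walls Gam Gp path)

abbrev QConf (k : ℕ) : Type := Pool.Agent.Helper49.QP.Conf k

variable {k : ℕ}

/-- Edges with ends of different colours. -/
def Brk (ω : QConf k) (e : Pool.Agent.Helper49.FL.Edge) : Prop := ω e.1 ≠ ω (tip e)

/-- Two broken edges belong to the same contour. -/
def SC (ω : QConf k) : Pool.Agent.Helper49.FL.Edge → Pool.Agent.Helper49.FL.Edge → Prop :=
  Relation.ReflTransGen (fun a b => Brk ω a ∧ Brk ω b ∧ Touch a b)

theorem touch_symm {a b : Bond} (h : Touch a b) : Touch b a := by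
  obtain ⟨p, h1, h2⟩ := h
  exact ⟨p, h2, h1⟩

theorem SC.symm {ω : QConf k} {a b : Bond} (h : SC ω a b) : SC ω b a := by
  induction h with
  | refl => exact Relation.ReflTransGen.refl
  | tail _ h ih => exact Relation.ReflTransGen.head ⟨h.2.1, h.1, touch_symm h.2.2⟩ ih

theorem brk_of {ω : QConf k} {e f : Bond} (he : Brk ω e) (h : SC ω e f) : Brk ω f := by
  rcases Relation.ReflTransGen.cases_tail h with h | ⟨c, _, h⟩
  · rw [h]; exact he
  · exact h.2.1

theorem mem_walls {ω : QConf k} {x : ℝ × ℝ} : x ∈ walls ω ↔ ∃ e, Brk ω e ∧ x ∈ dual e := by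
  simp only [walls, mem_iUnion, mem_ofPred_eq, exists_prop, Brk]

private theorem closed_un (S : Set Pool.Agent.Helper49.FL.Edge) : IsClosed (⋃ f ∈ S, dual f) := by
  rw [biUnion_eq_iUnion]
  exact (locfin.comp_injective Subtype.val_injective).isClosed_iUnion fun i => dual_closed i.1

theorem comp_eq {ω : QConf k} {e : Bond} (he : Brk ω e) {x : ℝ × ℝ} (hx : x ∈ dual e) :
    connectedComponentIn (walls ω) x = ⋃ f ∈ {f : Bond | SC ω e f}, dual f := by
  set C : Set Bond := {f : Bond | SC ω e f} with hC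
  have heC : e ∈ C := Relation.ReflTransGen.refl
  have hxU : x ∈ ⋃ f ∈ C, dual f := mem_biUnion heC hx
  have hsub : (⋃ f ∈ C, dual f) ⊆ walls ω := by
    intro y hy
    obtain ⟨f, hf, hyf⟩ := mem_iUnion₂.1 hy
    exact mem_walls.2 ⟨f, brk_of he hf, hyf⟩
  have hchain : ∀ f, SC ω e f →
      ∃ t ⊆ ⋃ f ∈ C, dual f, x ∈ t ∧ dual f ⊆ t ∧ IsPreconnected t := by
    intro f hf
    induction hf with
    | refl => exact ⟨dual e, subset_biUnion_of_mem (u := fun f => dual f) heC, hx, Subset.rfl, dual_conn e⟩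
    | @tail b c hb hbc ih =>
      obtain ⟨t, ht, hxt, hbt, htc⟩ := ih
      have hcC : c ∈ C := Relation.ReflTransGen.tail hb hbc
      obtain ⟨z, hz1, hz2⟩ := (dual_meet b c).2 hbc.2.2
      refine ⟨t ∪ dual c, union_subset ht (subset_biUnion_of_mem (u := fun f => dual f) hcC), Or.inl hxt,
        subset_union_right, IsPreconnected.union z (hbt hz1) hz2 htc (dual_conn c)⟩
  have hUc : IsPreconnected (⋃ f ∈ C, dual f) := by
    refine isPreconnected_of_forall x fun y hy => ?_
    obtain ⟨f, hf, hyf⟩ := mem_iUnion₂.1 hy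
    obtain ⟨t, ht, hxt, hft, htc⟩ := hchain f hf
    exact ⟨t, ht, hxt, hft hyf, htc⟩
  refine Subset.antisymm ?_ (hUc.subset_connectedComponentIn hxU hsub)
  have hpre : IsPreconnected (connectedComponentIn (walls ω) x) := isPreconnected_connectedComponentIn
  have hdisj : ∀ z, z ∈ (⋃ f ∈ C, dual f) → z ∈ (⋃ f ∈ {f | Brk ω f ∧ f ∉ C}, dual f) → False := by
    intro z h1 h2
    obtain ⟨f, hf, hzf⟩ := mem_iUnion₂.1 h1
    obtain ⟨g, hg, hzg⟩ := mem_iUnion₂.1 h2
    exact hg.2 (Relation.ReflTransGen.tail hf ⟨brk_of he hf, hg.1, (dual_meet f g).1 ⟨z, hzf, hzg⟩⟩)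
  have hcov : walls ω ⊆ (⋃ f ∈ C, dual f) ∪ ⋃ f ∈ {f | Brk ω f ∧ f ∉ C}, dual f := by
    intro z hz
    obtain ⟨f, hf, hzf⟩ := mem_walls.1 hz
    by_cases hfC : f ∈ C
    · exact Or.inl (mem_biUnion hfC hzf)
    · exact Or.inr (mem_biUnion (show f ∈ {f | Brk ω f ∧ f ∉ C} from ⟨hf, hfC⟩) hzf)
  intro y hy
  rcases hcov (connectedComponentIn_subset _ _ hy) with h | h
  · exact h
  · exfalso
    obtain ⟨z, _, hz1, hz2⟩ := isPreconnected_closed_iff.1 hpre _ _ (closed_un C)
      (closed_un {f | Brk ω f ∧ f ∉ C}) ((connectedComponentIn_subset _ _).trans hcov)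
      ⟨x, mem_connectedComponentIn (hsub hxU), hxU⟩ ⟨y, hy, h⟩
    exact hdisj z hz1 hz2

theorem mem_gam (ω : QConf k) (x : ℝ × ℝ) :
    x ∈ Gam ω ↔ ∃ e, Brk ω e ∧ x ∈ dual e ∧ {f : Bond | SC ω e f}.Infinite := by
  constructor
  · rintro ⟨hx, hub⟩
    obtain ⟨e, he, hxe⟩ := mem_walls.1 hx
    refine ⟨e, he, hxe, fun hfin => hub ?_⟩
    rw [comp_eq he hxe]
    exact fin_bdd hfin
  · rintro ⟨e, he, hxe, hinf⟩
    refine ⟨mem_walls.2 ⟨e, he, hxe⟩, ?_⟩
    rw [comp_eq he hxe]
    exact inf_unbdd hinf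

/-- The two-colour configuration: colour 1 or not. -/
def bw (ω : QConf k) : Cfg := fun x => decide (ω x = 0)

theorem brk_bw {ω : QConf k} {e : Bond} (h : Broken (bw ω) e) : Brk ω e := by
  have h2 := (brk_iff (bw ω) e).1 h
  intro h3
  apply h2
  simp only [bw, h3]

theorem sc_bw {ω : QConf k} {e f : Bond} (h : SameContour (bw ω) e f) : SC ω e f := by
  induction h with
  | refl => exact Relation.ReflTransGen.refl
  | tail _ h ih => exact Relation.ReflTransGen.tail ih ⟨brk_bw h.1, brk_bw h.2.1, h.2.2⟩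

section

variable {n : ℕ} {ω : QConf k} (ho : ∀ x ∉ Lam n, ω x = dob x)

include ho

theorem bw_mem : bw ω ∈ confs (box n n) (eta 0) := by
  rw [mem_confs]
  intro i hi
  have h1 : i ∉ Lam n := hi
  simp only [bw, ho i h1, dob, eta, zero_add, decide_eq_decide]
  constructor
  · intro h
    by_contra h2
    rw [if_neg h2] at h
    exact one_ne_zero h
  · intro h
    rw [if_pos h]

omit ho in
theorem mem_Lam {i : ℤ × ℤ} : i ∈ Lam n ↔ (-(n : ℤ) ≤ i.1 ∧ i.1 ≤ n) ∧ (-(n : ℤ) + 1 ≤ i.2 ∧ i.2 ≤ n) := by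
  unfold Lam
  rw [Finset.mem_product, Finset.mem_Icc, Finset.mem_Icc]

/-- The broken edges with both ends off the box. -/
theorem out_brk {e : Bond} (hb : Brk ω e) (h1 : e.1 ∉ Lam n) (h2 : tip e ∉ Lam n) :
    e.2 = false ∧ e.1.2 = 0 := by
  obtain ⟨⟨a, b⟩, c⟩ := e
  unfold Brk at hb
  rw [ho _ h1, ho _ h2] at hb
  cases c
  · refine ⟨rfl, ?_⟩
    simp only [dob, tip, Bool.false_eq_true, if_false] at hb ⊢
    by_contra h
    apply hb
    by_cases h3 : 1 ≤ b
    · rw [if_pos h3, if_pos (by omega)]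
    · rw [if_neg h3, if_neg (by omega)]
  · exfalso
    apply hb
    simp only [dob, tip, if_true]

theorem ray_brk {x : ℤ} (hx : x < -n ∨ (n : ℤ) < x) : Brk ω ((x, 0), false) := by
  unfold Brk
  have h1 : ((x, 0) : ℤ × ℤ) ∉ Lam n := by
    rw [mem_Lam]
    simp only
    omega
  have h2 : tip ((x, 0), false) ∉ Lam n := by
    rw [mem_Lam]
    simp only [tip, Bool.false_eq_true, if_false]
    omega
  rw [ho _ h1, ho _ h2]
  simp only [dob, tip, Bool.false_eq_true, if_false, zero_add]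
  rw [if_neg (by omega), if_pos (by omega)]
  exact one_ne_zero

omit ho in
private lemma touch_row (x : ℤ) : Touch ((x, 0), false) ((x + 1, 0), false) :=
  ⟨(x, 0), Or.inr (Or.inl rfl), Or.inr (Or.inr (Or.inl (by simp [e1])))⟩

theorem right_ray (j : ℕ) : SC ω (((n : ℤ) + 1, 0), false) (((n : ℤ) + 1 + j, 0), false) := by
  induction j with
  | zero =>
    simp only [Nat.cast_zero, add_zero]
    exact Relation.ReflTransGen.refl
  | succ j ih =>
    refine Relation.ReflTransGen.tail ih ⟨ray_brk ho (Or.inr (by omega)),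
      ray_brk ho (Or.inr (by push_cast; omega)), ?_⟩
    have h1 := touch_row ((n : ℤ) + 1 + j)
    have h2 : (n : ℤ) + 1 + j + 1 = (n : ℤ) + 1 + (j + 1 : ℕ) := by push_cast; ring
    rwa [h2] at h1

theorem left_ray (j : ℕ) : SC ω ((-(n : ℤ) - 1, 0), false) ((-(n : ℤ) - 1 - j, 0), false) := by
  induction j with
  | zero =>
    simp only [Nat.cast_zero, sub_zero]
    exact Relation.ReflTransGen.refl
  | succ j ih =>
    refine Relation.ReflTransGen.tail ih ⟨ray_brk ho (Or.inl (by omega)),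
      ray_brk ho (Or.inl (by push_cast; omega)), ?_⟩
    have h1 := touch_symm (touch_row (-(n : ℤ) - 1 - (j + 1 : ℕ)))
    have h2 : -(n : ℤ) - 1 - (j + 1 : ℕ) + 1 = -(n : ℤ) - 1 - j := by push_cast; ring
    rwa [h2] at h1

/-- The left ray and the right ray are in one contour. -/
theorem cross (hn : 1 ≤ n) : SC ω ((-(n : ℤ) - 1, 0), false) (((n : ℤ) + 1, 0), false) := by
  have hω := bw_mem ho
  have hout : ∀ y : ℤ, ((-(n : ℤ) - 1, y) : Site) ∉ box n n := by
    intro y
    rw [mem_box]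
    simp only
    omega
  have hlow : Low n n (bw ω) (-(n : ℤ) - 1, 0) :=
    ⟨(-(n : ℤ) - 1, 0), hout 0, le_rfl, Relation.ReflTransGen.refl⟩
  obtain ⟨y, hy, hI⟩ := low_below hω (by omega) (by omega) hlow
  simp only at hy hI
  have hb := brk_bw hI.1
  have h1 : ((-(n : ℤ) - 1, y) : ℤ × ℤ) ∉ Lam n := hout y
  have h2 : tip ((-(n : ℤ) - 1, y), false) ∉ Lam n := hout (y + 1)
  have h3 := (out_brk ho hb h1 h2).2
  simp only at h3
  rw [h3] at hI
  exact sc_bw hI.2

/-- The infinite contour. -/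
theorem inf_iff (hn : 1 ≤ n) (e : Bond) :
    (Brk ω e ∧ {f : Bond | SC ω e f}.Infinite) ↔
      Brk ω e ∧ SC ω e ((-(n : ℤ) - 1, 0), false) := by
  constructor
  · rintro ⟨hb, hinf⟩
    refine ⟨hb, ?_⟩
    let F : Finset Bond := ((Finset.Icc (-(n : ℤ) - 1) n) ×ˢ (Finset.Icc (-(n : ℤ)) n)) ×ˢ
      Finset.univ
    obtain ⟨f, hf1, hf2⟩ := hinf.exists_notMem_finset F
    have hf1 : SC ω e f := hf1
    have hfb := brk_of hb hf1
    obtain ⟨⟨x, y⟩, c⟩ := f
    have hF : ¬ ((-(n : ℤ) - 1 ≤ x ∧ x ≤ n) ∧ (-(n : ℤ) ≤ y ∧ y ≤ n)) := by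
      intro h
      apply hf2
      simp only [F, Finset.mem_product, Finset.mem_Icc, Finset.mem_univ, and_true]
      exact h
    have h1 : ((x, y) : ℤ × ℤ) ∉ Lam n := by
      rw [mem_Lam]
      simp only
      omega
    have h2 : tip ((x, y), c) ∉ Lam n := by
      rw [mem_Lam]
      cases c
      · simp only [tip, Bool.false_eq_true, if_false]
        omega
      · simp only [tip, if_true]
        omega
    obtain ⟨h3, h4⟩ := out_brk ho hfb h1 h2
    simp only at h3 h4
    subst h3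
    subst h4
    have hx : x < -n ∨ (n : ℤ) < x := by
      by_contra hc
      apply hF
      omega
    rcases hx with hx | hx
    · have h3 := left_ray ho (-(n : ℤ) - 1 - x).toNat
      rw [Int.toNat_of_nonneg (by omega)] at h3
      have h4 : -(n : ℤ) - 1 - (-(n : ℤ) - 1 - x) = x := by ring
      rw [h4] at h3
      exact Relation.ReflTransGen.trans hf1 h3.symm
    · have h3 := right_ray ho (x - (n + 1)).toNat
      rw [Int.toNat_of_nonneg (by omega)] at h3
      have h4 : (n : ℤ) + 1 + (x - (n + 1)) = x := by ring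
      rw [h4] at h3
      exact Relation.ReflTransGen.trans hf1 (Relation.ReflTransGen.trans h3.symm (cross ho hn).symm)
  · rintro ⟨hb, hc⟩
    refine ⟨hb, ?_⟩
    refine Set.infinite_of_injective_forall_mem (f := fun j : ℕ =>
      ((((n : ℤ) + 1 + j, 0), false) : Bond)) ?_ ?_
    · intro j l hkl
      simp only [Prod.mk.injEq, add_right_inj, Nat.cast_inj, and_true] at hkl
      exact hkl
    · intro j
      exact Relation.ReflTransGen.trans hc (Relation.ReflTransGen.trans (cross ho hn) (right_ray ho j))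

/-- The vertical edges of the unbounded contour in a column: there is a highest one. -/
theorem top_edge (hn : 1 ≤ n) {x : ℤ} (hx : |x| ≤ n) : ∃ K : ℤ, |K| ≤ n ∧ Brk ω ((x, K), false) ∧
    SC ω ((x, K), false) ((-(n : ℤ) - 1, 0), false) ∧
    ∀ j : ℤ, Brk ω ((x, j), false) → SC ω ((x, j), false) ((-(n : ℤ) - 1, 0), false) → j ≤ K := by
  classical
  have hx' := abs_le.1 hx
  have hbd : ∀ j, Brk ω ((x, j), false) → -(n : ℤ) ≤ j ∧ j ≤ n := by
    intro j hj
    by_cases h1 : ((x, j) : ℤ × ℤ) ∈ Lam n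
    · rw [mem_Lam] at h1
      simp only at h1
      omega
    by_cases h2 : tip ((x, j), false) ∈ Lam n
    · rw [mem_Lam] at h2
      simp only [tip, Bool.false_eq_true, if_false] at h2
      omega
    have h3 := (out_brk ho hj h1 h2).2
    simp only at h3
    omega
  have hg : gg n n (bw ω) (x, -(n : ℤ)) = 1 := by
    refine gg_low (bw_mem ho) (by omega) (by omega) ?_ ?_
    · rw [mem_box]
      simp only
      omega
    · simp only
      omega
  obtain ⟨y, hy, hI⟩ := Pool.Agent.Helper49.RD.gg_above hg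
  have hyb : Brk ω ((x, y), false) := brk_bw hI.1
  have hyc : SC ω ((x, y), false) ((-(n : ℤ) - 1, 0), false) :=
    Relation.ReflTransGen.trans (sc_bw hI.2) (cross ho hn).symm
  set S : Finset ℤ := (Finset.Icc (-(n : ℤ)) n).filter fun j =>
    Brk ω ((x, j), false) ∧ SC ω ((x, j), false) ((-(n : ℤ) - 1, 0), false) with hS
  have hne : S.Nonempty := ⟨y, by
    rw [hS, Finset.mem_filter, Finset.mem_Icc]
    exact ⟨hbd y hyb, hyb, hyc⟩⟩
  have hm := Finset.max'_mem S hne
  set K := S.max' hne with hK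
  rw [hS, Finset.mem_filter, Finset.mem_Icc] at hm
  refine ⟨K, abs_le.2 hm.1, hm.2.1, hm.2.2, ?_⟩
  intro j hj1 hj2
  refine Finset.le_max' S j ?_
  rw [hS, Finset.mem_filter, Finset.mem_Icc]
  exact ⟨hbd j hj1, hj1, hj2⟩

end

end Pool.Helper17.OZG
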