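import Pool.Agent.Helper49.QP.Law
import Pool.Agent.Helper49.FK.Comp
import Pool.Agent.Helper49.FK.Fkg
import Pool.Agent.Helper49.FK.Cond

/-!
Project OZ (MP_7e0861_pr): the Edwards-Sokal identity with the boundary condition of colour 1 (wired
random-cluster measure).

`E = FL.edges Λ` are the primal edges meeting `Λ`, `F` the other edges of `D`; they join all vertices of `D`
off `Λ`. The weight is `∏ (1 + r 1(equal ends))`, `r = e^β - 1`; the coefficient of the set `A ⊆ E` of open edges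
is `r ^ |A|` times the number of the configurations which are constant along `A`, i.e. on the clusters of
`A ∪ F`: `q ^ (number of clusters - 1)`. If `z` is not joined to the outside, the colours 1 and 2 can be
exchanged on its cluster.
-/

open Finset

namespace Pool.Helper17.OZG

open Pool.Helper49.FK (Conn gr ncl wt pr prW hom)

abbrev QC (k : ℕ) : Type := Pool.Agent.Helper49.QP.Conf k

abbrev FE : Type := Pool.Helper49.FK.Edge

/-- `F` wires the vertices of `D` off `Λ`. -/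
structure WB (Λ D : Finset (ℤ × ℤ)) (F : Finset FE) : Prop where
  sub : Λ ⊆ D
  out : ∀ x ∈ D, ∀ y ∈ D, x ∉ Λ → y ∉ Λ → Conn F x y
  ne : ∃ x ∈ D, x ∉ Λ
  edges : Pool.Helper49.FK.edges D = Pool.Agent.Helper49.FL.edges Λ ∪ F
  disj : Disjoint (Pool.Agent.Helper49.FL.edges Λ) F
  F_out : ∀ e ∈ F, e.1 ∉ Λ ∧ Pool.Helper49.FK.tip e ∉ Λ

variable {k : ℕ} {Λ D : Finset (ℤ × ℤ)} {F A ξ : Finset FE}

open Classical in
/-- The indicator. -/
noncomputable def ind (p : Prop) : ℝ := if p then 1 else 0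

theorem ind_pos {p : Prop} (h : p) : ind p = 1 := if_pos h

theorem ind_neg {p : Prop} (h : ¬ p) : ind p = 0 := if_neg h

/-- Constant along the edges of `ξ`. -/
def Cst (ξ : Finset FE) (ω : QC k) : Prop := ∀ e ∈ ξ, ω e.1 = ω (Pool.Helper49.FK.tip e)

theorem Cst.conn {ω : QC k} (h : Cst ξ ω) {x y : ℤ × ℤ} (hc : Conn ξ x y) : ω x = ω y := by
  have h1 := Pool.Helper49.FK.Conn.induct (S := {z | ω x = ω z}) hc rfl (by
    intro e he
    simp only [Set.mem_ofPred_eq, h e he])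
  exact h1

/-- The configuration with colour `0` off `Λ`. -/
def g0 (Λ : Finset (ℤ × ℤ)) (σ : Λ → Fin (k + 2)) : QC k :=
  Pool.Agent.Helper49.QP.glue Λ (fun _ => 0) σ

theorem g0_in {σ : Λ → Fin (k + 2)} {x : ℤ × ℤ} (h : x ∈ Λ) : g0 Λ σ x = σ ⟨x, h⟩ := by
  simp [g0, Pool.Agent.Helper49.QP.glue, h]

theorem g0_out {σ : Λ → Fin (k + 2)} {x : ℤ × ℤ} (h : x ∉ Λ) : g0 Λ σ x = 0 := by
  simp [g0, Pool.Agent.Helper49.QP.glue, h]

section

variable (h : WB Λ D F) (hA : A ⊆ Pool.Agent.Helper49.FL.edges Λ)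

include h

theorem cst_union {σ : Λ → Fin (k + 2)} : Cst A (g0 Λ σ) ↔ Cst (A ∪ F) (g0 Λ σ) := by
  constructor
  · intro h1 e he
    rcases Finset.mem_union.1 he with he | he
    · exact h1 e he
    · obtain ⟨h2, h3⟩ := h.F_out e he
      rw [g0_out h2, g0_out h3]
  · intro h1 e he
    exact h1 e (Finset.mem_union_left _ he)

include hA

theorem sub_edges : A ∪ F ⊆ Pool.Helper49.FK.edges D := by
  rw [h.edges]
  exact Finset.union_subset_union_left hA

open Classical in
/-- The number of the configurations which are constant along `A`. -/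
theorem card_cst : (Finset.univ.filter fun σ : Λ → Fin (k + 2) => Cst A (g0 Λ σ)).card * (k + 2) =
    (k + 2) ^ (ncl D (A ∪ F)) := by
  set ξ : Finset FE := A ∪ F with hξ
  have hξD : ξ ⊆ Pool.Helper49.FK.edges D := sub_edges h hA
  obtain ⟨o, hoD, hoΛ⟩ := h.ne
  let cm : ℤ × ℤ → (gr ξ).ConnectedComponent := fun x => (gr ξ).connectedComponentMk x
  have hcm : ∀ x y, cm x = cm y ↔ Conn ξ x y := fun x y => SimpleGraph.ConnectedComponent.eq
  have hout : ∀ x ∈ D, x ∉ Λ → cm x = cm o := by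
    intro x hx hx'
    rw [hcm]
    exact (h.out x hx o hoD hx' hoΛ).mono Finset.subset_union_right
  let K : Finset (gr ξ).ConnectedComponent := (D.image cm).erase (cm o)
  have hKcard : K.card + 1 = ncl D ξ := by
    have h1 : cm o ∈ D.image cm := Finset.mem_image_of_mem _ hoD
    have h2 : 0 < (D.image cm).card := Finset.card_pos.2 ⟨_, h1⟩
    have h3 : ncl D ξ = (D.image cm).card := rfl
    rw [h3, Finset.card_erase_of_mem h1]
    omega
  have hK : ∀ c : K, ∃ x : Λ, cm x.1 = c.1 := by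
    rintro ⟨c, hc⟩
    obtain ⟨h1, h2⟩ := Finset.mem_erase.1 hc
    obtain ⟨x, hx, rfl⟩ := Finset.mem_image.1 h2
    have hxΛ : x ∈ Λ := by
      by_contra h3
      exact h1 (hout x hx h3)
    exact ⟨⟨x, hxΛ⟩, rfl⟩
  choose rep hrep using hK
  let T : Type := {σ : Λ → Fin (k + 2) // Cst A (g0 Λ σ)}
  let toF : T → (K → Fin (k + 2)) := fun σ c => σ.1 (rep c)
  let inv : (K → Fin (k + 2)) → (Λ → Fin (k + 2)) := fun f x =>
    if hx : cm x.1 ∈ K then f ⟨cm x.1, hx⟩ else 0
  have hinv : ∀ f, ∀ y ∈ D, g0 Λ (inv f) y = if hx : cm y ∈ K then f ⟨cm y, hx⟩ else 0 := by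
    intro f y hy
    by_cases hyΛ : y ∈ Λ
    · rw [g0_in hyΛ]
    · rw [g0_out hyΛ, dif_neg]
      rw [hout y hy hyΛ]
      exact Finset.notMem_erase _ _
  have hinvc : ∀ f, Cst A (g0 Λ (inv f)) := by
    intro f e he
    have heξ : e ∈ ξ := Finset.mem_union_left _ he
    obtain ⟨h1, h2⟩ := Pool.Helper49.FK.mem_edges.1 (hξD heξ)
    rw [hinv f _ h1, hinv f _ h2]
    have h3 : cm e.1 = cm (Pool.Helper49.FK.tip e) := (hcm _ _).2 (Pool.Helper49.FK.conn_edge heξ)
    rw [h3]
  have heq : T ≃ (K → Fin (k + 2)) :=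
    { toFun := toF
      invFun := fun f => ⟨inv f, hinvc f⟩
      left_inv := by
        rintro ⟨σ, hσ⟩
        apply Subtype.ext
        funext x
        have hσ' : Cst ξ (g0 Λ σ) := (cst_union h).1 hσ
        show (if hx : cm x.1 ∈ K then σ (rep ⟨cm x.1, hx⟩) else 0) = σ x
        by_cases hx : cm x.1 ∈ K
        · rw [dif_pos hx]
          have h1 : Conn ξ (rep ⟨cm x.1, hx⟩).1 x.1 := (hcm _ _).1 (hrep ⟨cm x.1, hx⟩)
          have h2 := hσ'.conn h1
          rw [g0_in (rep ⟨cm x.1, hx⟩).2, g0_in x.2] at h2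
          exact h2
        · rw [dif_neg hx]
          have h1 : cm x.1 = cm o := by
            by_contra h2
            exact hx (Finset.mem_erase.2 ⟨h2, Finset.mem_image_of_mem _ (h.sub x.2)⟩)
          have h2 := hσ'.conn ((hcm _ _).1 h1)
          rw [g0_in x.2, g0_out hoΛ] at h2
          exact h2.symm
      right_inv := by
        intro f
        funext c
        show (if hx : cm (rep c).1 ∈ K then f ⟨cm (rep c).1, hx⟩ else 0) = f c
        have h1 : cm (rep c).1 ∈ K := by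
          rw [hrep c]
          exact c.2
        rw [dif_pos h1]
        congr 1
        exact Subtype.ext (hrep c) }
  have h1 : (Finset.univ.filter fun σ : Λ → Fin (k + 2) => Cst A (g0 Λ σ)).card = (k + 2) ^ K.card := by
    rw [← Fintype.card_subtype, Fintype.card_congr heq, Fintype.card_fun, Fintype.card_fin,
      Fintype.card_coe]
  rw [h1, ← pow_succ, hKcard]

open Classical in
/-- The sum of the sign of the colour at `z`. -/
theorem sum_cst {z : ℤ × ℤ} (hz : z ∈ Λ) :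
    ∑ σ ∈ Finset.univ.filter (fun σ : Λ → Fin (k + 2) => Cst A (g0 Λ σ)),
      (if g0 Λ σ z = 0 then (1 : ℝ) else if g0 Λ σ z = 1 then -1 else 0) =
    ((Finset.univ.filter fun σ : Λ → Fin (k + 2) => Cst A (g0 Λ σ)).card : ℝ) *
      ind (∃ y ∈ D, y ∉ Λ ∧ Conn (A ∪ F) z y) := by
  by_cases hc : ∃ y ∈ D, y ∉ Λ ∧ Conn (A ∪ F) z y
  · rw [ind_pos hc, mul_one]
    obtain ⟨y, _, hy, hzy⟩ := hc
    rw [Finset.card_eq_sum_ones, Nat.cast_sum]
    refine Finset.sum_congr rfl fun σ hσ => ?_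
    have h1 : Cst (A ∪ F) (g0 Λ σ) := (cst_union h).1 (Finset.mem_filter.1 hσ).2
    have h2 := h1.conn hzy
    rw [g0_out hy] at h2
    rw [if_pos h2, Nat.cast_one]
  · rw [ind_neg hc, mul_zero]
    -- exchange of the colours on the cluster of `z`
    let sw : Fin (k + 2) → Fin (k + 2) := Equiv.swap 0 1
    let T : (Λ → Fin (k + 2)) → (Λ → Fin (k + 2)) := fun σ x =>
      if Conn (A ∪ F) z x.1 then sw (σ x) else σ x
    have hT : ∀ σ, ∀ y ∈ D, g0 Λ (T σ) y = if Conn (A ∪ F) z y then sw (g0 Λ σ y) else g0 Λ σ y := by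
      intro σ y hy
      by_cases hyΛ : y ∈ Λ
      · rw [g0_in hyΛ, g0_in hyΛ]
      · have h1 : ¬ Conn (A ∪ F) z y := fun h1 => hc ⟨y, hy, hyΛ, h1⟩
        rw [g0_out hyΛ, if_neg h1, g0_out hyΛ]
    have hTT : ∀ σ, T (T σ) = σ := by
      intro σ
      funext x
      show (if Conn (A ∪ F) z x.1 then sw (T σ x) else T σ x) = σ x
      by_cases h1 : Conn (A ∪ F) z x.1
      · rw [if_pos h1]
        show sw (if Conn (A ∪ F) z x.1 then sw (σ x) else σ x) = σ x
        rw [if_pos h1]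
        exact Equiv.swap_apply_self 0 1 (σ x)
      · rw [if_neg h1]
        show (if Conn (A ∪ F) z x.1 then sw (σ x) else σ x) = σ x
        rw [if_neg h1]
    have hTc : ∀ σ, Cst A (g0 Λ σ) → Cst A (g0 Λ (T σ)) := by
      intro σ hσ e he
      have heξ : e ∈ A ∪ F := Finset.mem_union_left _ he
      obtain ⟨h1, h2⟩ := Pool.Helper49.FK.mem_edges.1 (sub_edges h hA heξ)
      rw [hT σ _ h1, hT σ _ h2, hσ e he]
      have h3 : Conn (A ∪ F) z e.1 ↔ Conn (A ∪ F) z (Pool.Helper49.FK.tip e) :=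
        ⟨fun h4 => h4.trans (Pool.Helper49.FK.conn_edge heξ),
          fun h4 => h4.trans (Pool.Helper49.FK.conn_edge heξ).symm⟩
      by_cases h4 : Conn (A ∪ F) z e.1
      · rw [if_pos h4, if_pos (h3.1 h4)]
      · rw [if_neg h4, if_neg (fun h5 => h4 (h3.2 h5))]
    have key : ∑ σ ∈ Finset.univ.filter (fun σ : Λ → Fin (k + 2) => Cst A (g0 Λ σ)),
        (if g0 Λ σ z = 0 then (1 : ℝ) else if g0 Λ σ z = 1 then -1 else 0) =
        ∑ σ ∈ Finset.univ.filter (fun σ : Λ → Fin (k + 2) => Cst A (g0 Λ σ)),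
        -(if g0 Λ σ z = 0 then (1 : ℝ) else if g0 Λ σ z = 1 then -1 else 0) := by
      refine Finset.sum_bij' (fun σ _ => T σ) (fun σ _ => T σ) ?_ ?_ ?_ ?_ ?_
      · intro σ hσ
        exact Finset.mem_filter.2 ⟨Finset.mem_univ _, hTc σ (Finset.mem_filter.1 hσ).2⟩
      · intro σ hσ
        exact Finset.mem_filter.2 ⟨Finset.mem_univ _, hTc σ (Finset.mem_filter.1 hσ).2⟩
      · intro σ _
        exact hTT σ
      · intro σ _
        exact hTT σ
      · intro σ _
        rw [hT σ z (h.sub hz), if_pos (Pool.Helper49.FK.Conn.refl _ z)]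
        have h01 : (0 : Fin (k + 2)) ≠ 1 := by
          intro h5
          have := congrArg Fin.val h5
          simp at this
        by_cases h5 : g0 Λ σ z = 0
        · rw [h5]
          have h6 : sw 0 = 1 := Equiv.swap_apply_left 0 1
          rw [h6, if_pos rfl, if_neg h01.symm, if_pos rfl, neg_neg]
        · by_cases h6 : g0 Λ σ z = 1
          · rw [h6]
            have h7 : sw 1 = 0 := Equiv.swap_apply_right 0 1
            rw [h7, if_neg h01.symm, if_pos rfl, if_pos rfl]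
          · have h7 : sw (g0 Λ σ z) = g0 Λ σ z := Equiv.swap_apply_of_ne_of_ne h5 h6
            rw [h7, if_neg h5, if_neg h6, neg_zero]
    rw [Finset.sum_neg_distrib] at key
    linarith

end

open Classical in
/-- The expansion of the weight. -/
theorem weight_eq {β : ℝ} (ω : QC k) : Pool.Agent.Helper49.QP.weight β 1 Λ ω =
    ∑ A ∈ (Pool.Agent.Helper49.FL.edges Λ).powerset,
      (Real.exp β - 1) ^ A.card * if Cst A ω then 1 else 0 := by
  unfold Pool.Agent.Helper49.QP.weight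
  rw [Finset.mul_sum, Real.exp_sum]
  have h1 : ∀ e ∈ Pool.Agent.Helper49.FL.edges Λ,
      Real.exp (β * (Pool.Agent.Helper49.FL.coup 1 e * if ω e.1 = ω (Pool.Agent.Helper49.FL.tip e) then 1 else 0)) =
      1 + (if ω e.1 = ω (Pool.Helper49.FK.tip e) then (Real.exp β - 1) else 0) := by
    intro e _
    have h2 : Pool.Agent.Helper49.FL.coup 1 e = 1 := by
      unfold Pool.Agent.Helper49.FL.coup
      split_ifs <;> rfl
    have h3 : Pool.Agent.Helper49.FL.tip e = Pool.Helper49.FK.tip e := rfl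
    rw [h2, h3, one_mul]
    by_cases h4 : ω e.1 = ω (Pool.Helper49.FK.tip e)
    · rw [if_pos h4, if_pos h4, mul_one]
      ring
    · rw [if_neg h4, if_neg h4, mul_zero, Real.exp_zero, add_zero]
  rw [Finset.prod_congr rfl h1, Finset.prod_one_add]
  refine Finset.sum_congr rfl fun A _ => ?_
  by_cases hA : Cst A ω
  · rw [if_pos hA, mul_one, ← Finset.prod_const]
    refine Finset.prod_congr rfl fun e he => ?_
    rw [if_pos (hA e he)]
  · rw [if_neg hA, mul_zero]
    unfold Cst at hA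
    push Not at hA
    obtain ⟨e, he, hne⟩ := hA
    exact Finset.prod_eq_zero he (if_neg hne)

open Classical in
theorem sum_weight {β : ℝ} (f : QC k → ℝ) :
    ∑ σ : Λ → Fin (k + 2), Pool.Agent.Helper49.QP.weight β 1 Λ (g0 Λ σ) * f (g0 Λ σ) =
    ∑ A ∈ (Pool.Agent.Helper49.FL.edges Λ).powerset, (Real.exp β - 1) ^ A.card *
      ∑ σ ∈ Finset.univ.filter (fun σ : Λ → Fin (k + 2) => Cst A (g0 Λ σ)), f (g0 Λ σ) := by
  have h1 : ∀ σ : Λ → Fin (k + 2), Pool.Agent.Helper49.QP.weight β 1 Λ (g0 Λ σ) * f (g0 Λ σ) =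
      ∑ A ∈ (Pool.Agent.Helper49.FL.edges Λ).powerset, (Real.exp β - 1) ^ A.card *
        (if Cst A (g0 Λ σ) then f (g0 Λ σ) else 0) := by
    intro σ
    rw [weight_eq, Finset.sum_mul]
    refine Finset.sum_congr rfl fun A _ => ?_
    by_cases hA : Cst A (g0 Λ σ)
    · rw [if_pos hA, if_pos hA, mul_one]
    · rw [if_neg hA, if_neg hA]
      ring
  rw [Finset.sum_congr rfl fun σ _ => h1 σ, Finset.sum_comm]
  refine Finset.sum_congr rfl fun A _ => ?_
  rw [← Finset.mul_sum, Finset.sum_filter]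

open Classical in
private theorem sum_open {E F : Finset FE} (hd : Disjoint E F) (g : Finset FE → ℝ) :
    ∑ ω ∈ (E ∪ F).powerset, (if F ⊆ ω then g ω else 0) = ∑ A ∈ E.powerset, g (A ∪ F) := by
  rw [← Finset.sum_filter]
  refine Finset.sum_bij' (fun ω _ => ω \ F) (fun A _ => A ∪ F) ?_ ?_ ?_ ?_ ?_
  · intro ω hω
    obtain ⟨h1, h2⟩ := Finset.mem_filter.1 hω
    rw [Finset.mem_powerset] at h1 ⊢
    intro e he
    obtain ⟨h3, h4⟩ := Finset.mem_sdiff.1 he
    rcases Finset.mem_union.1 (h1 h3) with h5 | h5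
    · exact h5
    · exact absurd h5 h4
  · intro A hA
    rw [Finset.mem_powerset] at hA
    rw [Finset.mem_filter, Finset.mem_powerset]
    exact ⟨Finset.union_subset_union_left hA, Finset.subset_union_right⟩
  · intro ω hω
    exact Finset.sdiff_union_of_subset (Finset.mem_filter.1 hω).2
  · intro A hA
    rw [Finset.mem_powerset] at hA
    rw [Finset.union_sdiff_right]
    exact Finset.sdiff_eq_self_of_disjoint (hd.mono_left hA)
  · intro ω hω
    rw [Finset.sdiff_union_of_subset (Finset.mem_filter.1 hω).2]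

open Classical in
private theorem pr_open {q r : ℝ} (h : WB Λ D F) (B : Finset FE → Prop) :
    pr q (hom r) D (fun ω => F ⊆ ω ∧ B ω) =
      r ^ F.card * (∑ A ∈ (Pool.Agent.Helper49.FL.edges Λ).powerset,
        r ^ A.card * q ^ ncl D (A ∪ F) * ind (B (A ∪ F))) / Pool.Helper49.FK.Z q (hom r) D := by
  have h1 : ∀ ω ∈ (Pool.Helper49.FK.edges D).powerset,
      wt q (hom r) D ω * (if F ⊆ ω ∧ B ω then (1 : ℝ) else 0) =
      if F ⊆ ω then wt q (hom r) D ω * ind (B ω) else 0 := by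
    intro ω _
    by_cases h2 : F ⊆ ω
    · by_cases h3 : B ω
      · rw [if_pos ⟨h2, h3⟩, if_pos h2, ind_pos h3]
      · rw [if_neg (fun h4 => h3 h4.2), if_pos h2, ind_neg h3]
    · rw [if_neg (fun h4 => h2 h4.1), if_neg h2, mul_zero]
  have h2 : ∑ ω ∈ (Pool.Helper49.FK.edges D).powerset,
      wt q (hom r) D ω * (if F ⊆ ω ∧ B ω then (1 : ℝ) else 0) =
      r ^ F.card * ∑ A ∈ (Pool.Agent.Helper49.FL.edges Λ).powerset,
        r ^ A.card * q ^ ncl D (A ∪ F) * ind (B (A ∪ F)) := by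
    rw [Finset.sum_congr rfl h1, h.edges, sum_open h.disj, Finset.mul_sum]
    refine Finset.sum_congr rfl fun A hA => ?_
    rw [Finset.mem_powerset] at hA
    have h3 : wt q (hom r) D (A ∪ F) = r ^ A.card * r ^ F.card * q ^ ncl D (A ∪ F) := by
      unfold wt hom
      rw [Finset.prod_const, Finset.card_union_of_disjoint (h.disj.mono_left hA), pow_add]
    rw [h3]
    ring
  unfold pr Pool.Helper49.FK.ex
  rw [← h2]
  congr 1
  refine Finset.sum_congr rfl fun ω _ => ?_
  congr 1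
  by_cases h3 : F ⊆ ω ∧ B ω
  · simp only [if_pos h3]
  · simp only [if_neg h3]

open Classical in
/-- The Edwards-Sokal identity. -/
theorem es_wired {β : ℝ} (hβ : 0 < β) (h : WB Λ D F) {z : ℤ × ℤ} (hz : z ∈ Λ) :
    Pool.Agent.Helper49.QP.expec β 1 Λ (fun _ => (0 : Fin (k + 2)))
      (fun ω => if ω z = 0 then 1 else if ω z = 1 then -1 else 0) =
    prW (k + 2) (hom (Real.exp β - 1)) D F (fun ω => ∃ y ∈ D, y ∉ Λ ∧ Conn ω z y) := by
  have hr : 0 < Real.exp β - 1 := by
    have := Real.add_one_lt_exp hβ.ne'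
    linarith
  set r : ℝ := Real.exp β - 1 with hrdef
  have hq : (0 : ℝ) < (k : ℝ) + 2 := by positivity
  have hcard : ∀ A ∈ (Pool.Agent.Helper49.FL.edges Λ).powerset,
      ((Finset.univ.filter fun σ : Λ → Fin (k + 2) => Cst A (g0 Λ σ)).card : ℝ) =
        ((k : ℝ) + 2) ^ ncl D (A ∪ F) / (k + 2) := by
    intro A hA
    rw [eq_div_iff hq.ne']
    have h1 := card_cst (k := k) h (Finset.mem_powerset.1 hA)
    exact_mod_cast h1
  have hnum : ∑ σ : Λ → Fin (k + 2), Pool.Agent.Helper49.QP.weight β 1 Λ (g0 Λ σ) *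
      (if g0 Λ σ z = 0 then (1 : ℝ) else if g0 Λ σ z = 1 then -1 else 0) =
      (∑ A ∈ (Pool.Agent.Helper49.FL.edges Λ).powerset, r ^ A.card * ((k : ℝ) + 2) ^ ncl D (A ∪ F) *
        ind (∃ y ∈ D, y ∉ Λ ∧ Conn (A ∪ F) z y)) / (k + 2) := by
    rw [sum_weight (fun ω => if ω z = 0 then (1 : ℝ) else if ω z = 1 then -1 else 0), Finset.sum_div]
    refine Finset.sum_congr rfl fun A hA => ?_
    rw [sum_cst h (Finset.mem_powerset.1 hA) hz, hcard A hA]
    ring
  have hden : ∑ σ : Λ → Fin (k + 2), Pool.Agent.Helper49.QP.weight β 1 Λ (g0 Λ σ) =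
      (∑ A ∈ (Pool.Agent.Helper49.FL.edges Λ).powerset, r ^ A.card * ((k : ℝ) + 2) ^ ncl D (A ∪ F)) /
        (k + 2) := by
    have h1 := sum_weight (Λ := Λ) (k := k) (β := β) (fun _ => (1 : ℝ))
    simp only [mul_one] at h1
    rw [h1, Finset.sum_div]
    refine Finset.sum_congr rfl fun A hA => ?_
    rw [Finset.sum_const, nsmul_eq_mul, mul_one, hcard A hA]
    ring
  have hZ : 0 < Pool.Helper49.FK.Z ((k : ℝ) + 2) (hom r) D := by
    unfold Pool.Helper49.FK.Z
    refine Finset.sum_pos (fun ω _ => ?_) ⟨∅, Finset.empty_mem_powerset _⟩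
    unfold wt hom
    rw [Finset.prod_const]
    positivity
  have hpos : 0 < ∑ A ∈ (Pool.Agent.Helper49.FL.edges Λ).powerset,
      r ^ A.card * ((k : ℝ) + 2) ^ ncl D (A ∪ F) := by
    refine Finset.sum_pos (fun ω _ => ?_) ⟨∅, Finset.empty_mem_powerset _⟩
    positivity
  have hpn := pr_open (q := (k : ℝ) + 2) (r := r) h (fun ω => ∃ y ∈ D, y ∉ Λ ∧ Conn ω z y)
  have hpd : pr ((k : ℝ) + 2) (hom r) D (fun ω => F ⊆ ω) =
      r ^ F.card * (∑ A ∈ (Pool.Agent.Helper49.FL.edges Λ).powerset,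
        r ^ A.card * ((k : ℝ) + 2) ^ ncl D (A ∪ F)) /
        Pool.Helper49.FK.Z ((k : ℝ) + 2) (hom r) D := by
    have h1 := pr_open (q := (k : ℝ) + 2) (r := r) h (fun _ => True)
    simp only [and_true, ind_pos trivial, mul_one] at h1
    exact h1
  have e1 : Pool.Agent.Helper49.QP.expec β 1 Λ (fun _ => (0 : Fin (k + 2)))
      (fun ω => if ω z = 0 then 1 else if ω z = 1 then -1 else 0) =
      ((∑ A ∈ (Pool.Agent.Helper49.FL.edges Λ).powerset, r ^ A.card * ((k : ℝ) + 2) ^ ncl D (A ∪ F) *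
        ind (∃ y ∈ D, y ∉ Λ ∧ Conn (A ∪ F) z y)) / (k + 2)) /
      ((∑ A ∈ (Pool.Agent.Helper49.FL.edges Λ).powerset, r ^ A.card * ((k : ℝ) + 2) ^ ncl D (A ∪ F)) /
        (k + 2)) := by
    rw [← hnum, ← hden]
    rfl
  rw [e1]
  unfold prW
  rw [hpn, hpd]
  have hrF : (r ^ F.card : ℝ) ≠ 0 := (pow_pos hr _).ne'
  field_simp

end Pool.Helper17.OZG
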