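import Pool.Agent.Helper17.OZG.Cont
import Pool.Agent.Helper49.FK.Defs

/-!
Project OZ (MP_7e0861_pr), geometry: the two statements used in the assembly.

The vertex `(i, j)` of the dual rectangle `{0, ..., 2n + 1} × {-n, ..., n}` is the point
`(i - n - 1/2, j + 1/2)`, the corner of the plaquette `(i - n - 1, j)`.
-/

open Set

namespace Pool.Helper17.OZG

open Pool.Agent.Helper49.DL hiding Lam
open Pool.Agent.Helper49.FL hiding dob walls Gam Gp path comp_eq mem_gam
open Pool.Agent.Helper49.QP (dob walls Gam Gp path)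
open Pool.Helper49.FK (Conn)

variable {k n : ℕ} {ω : QConf k}

private lemma conn_edge {a : Finset Pool.Helper49.FK.Edge} {e : Pool.Helper49.FK.Edge} (he : e ∈ a) :
    Conn a e.1 (Pool.Helper49.FK.tip e) := by
  by_cases h : e.1 = Pool.Helper49.FK.tip e
  · rw [← h]
    exact SimpleGraph.Reachable.refl _
  · exact SimpleGraph.Adj.reachable (G := Pool.Helper49.FK.gr a) ⟨e, he, Or.inl ⟨rfl, rfl⟩⟩

/-- The dual vertex of a plaquette. -/
def dv (n : ℕ) (p : ℤ × ℤ) : ℤ × ℤ := (p.1 + n + 1, p.2)

/-- The edges of `a` are the duals of the broken edges which meet the box. -/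
def Cov (n : ℕ) (ω : QConf k) (a : Finset Pool.Helper49.FK.Edge) : Prop :=
  (∀ x y : ℤ, |x| ≤ n → |y| ≤ n → ω (x, y) ≠ ω (x, y + 1) → ((x + n, y), true) ∈ a) ∧
    ∀ x y : ℤ, -(n : ℤ) - 1 ≤ x → x ≤ n → -(n : ℤ) + 1 ≤ y → y ≤ n → ω (x, y) ≠ ω (x + 1, y) →
      ((x + n + 1, y - 1), false) ∈ a

section

variable {a : Finset Pool.Helper49.FK.Edge} (hn : 1 ≤ n) (ho : ∀ x ∉ Lam n, ω x = dob x) (ha : Cov n ω a)

include hn ho ha

omit hn in
/-- A broken edge which is not a part of the rays joins its two plaquettes in `a`; the plaquettes are in the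
dual rectangle. -/
private lemma inside {e : Bond} (hb : Brk ω e) (hout : ¬ (e.2 = false ∧ e.1.2 = 0 ∧ (n : ℤ) < |e.1.1|)) :
    (∀ p, Side p e → -(n : ℤ) - 1 ≤ p.1 ∧ p.1 ≤ n) ∧
      ∀ p p', Side p e → Side p' e → Conn a (dv n p) (dv n p') := by
  obtain ⟨⟨x, y⟩, c⟩ := e
  cases c
  · -- vertical edge
    have hin : |x| ≤ n ∧ |y| ≤ n := by
      by_cases h1 : ((x, y) : ℤ × ℤ) ∈ Lam n
      · rw [mem_Lam] at h1
        simp only at h1
        rw [abs_le, abs_le]
        omega
      by_cases h2 : tip ((x, y), false) ∈ Lam n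
      · rw [mem_Lam] at h2
        simp only [tip, Bool.false_eq_true, if_false] at h2
        rw [abs_le, abs_le]
        omega
      have h3 := (out_brk ho hb h1 h2).2
      simp only at h3
      subst h3
      by_contra hc
      apply hout
      refine ⟨rfl, rfl, ?_⟩
      by_contra hc2
      apply hc
      refine ⟨by simp only at hc2; omega, by simp⟩
    have hside : ∀ p, Side p (((x, y), false) : Bond) → p = (x, y) ∨ p = (x - 1, y) := by
      intro p hp
      rcases hp with h | h | h | h
      · simp at h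
      · left
        exact (Prod.mk.inj h).1.symm
      · right
        have := (Prod.mk.inj h).1
        rw [Prod.ext_iff] at this
        simp only [e1, Prod.fst_add, Prod.snd_add, add_zero] at this
        exact Prod.ext (by omega) (by omega)
      · simp at h
    have hx := abs_le.1 hin.1
    have he : (((x + n, y), true) : Pool.Helper49.FK.Edge) ∈ a := by
      refine ha.1 x y hin.1 hin.2 ?_
      exact hb
    have hc : Conn a (x + n, y) (x + n + 1, y) := by
      have := conn_edge he
      simpa [Pool.Helper49.FK.tip] using this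
    have e1' : dv n (x, y) = (x + n + 1, y) := rfl
    have e2' : dv n (x - 1, y) = (x + n, y) := by
      unfold dv
      simp only
      exact Prod.ext (by simp only; ring) rfl
    constructor
    · intro p hp
      rcases hside p hp with rfl | rfl
      · simp only
        omega
      · simp only
        omega
    · intro p p' hp hp'
      rcases hside p hp with rfl | rfl <;> rcases hside p' hp' with rfl | rfl
      · exact SimpleGraph.Reachable.refl _
      · rw [e1', e2']
        exact hc.symm
      · rw [e1', e2']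
        exact hc
      · exact SimpleGraph.Reachable.refl _
  · -- horizontal edge
    have hin : -(n : ℤ) - 1 ≤ x ∧ x ≤ n ∧ -(n : ℤ) + 1 ≤ y ∧ y ≤ n := by
      by_cases h1 : ((x, y) : ℤ × ℤ) ∈ Lam n
      · rw [mem_Lam] at h1
        simp only at h1
        omega
      by_cases h2 : tip ((x, y), true) ∈ Lam n
      · rw [mem_Lam] at h2
        simp only [tip, if_true] at h2
        omega
      exact absurd (out_brk ho hb h1 h2).1 (by simp)
    have hside : ∀ p, Side p (((x, y), true) : Bond) → p = (x, y) ∨ p = (x, y - 1) := by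
      intro p hp
      rcases hp with h | h | h | h
      · left
        exact (Prod.mk.inj h).1.symm
      · simp at h
      · simp at h
      · right
        have := (Prod.mk.inj h).1
        rw [Prod.ext_iff] at this
        simp only [e2, Prod.fst_add, Prod.snd_add, add_zero] at this
        exact Prod.ext (by omega) (by omega)
    have he : (((x + n + 1, y - 1), false) : Pool.Helper49.FK.Edge) ∈ a := by
      refine ha.2 x y hin.1 hin.2.1 hin.2.2.1 hin.2.2.2 ?_
      exact hb
    have hc : Conn a (x + n + 1, y - 1) (x + n + 1, y) := by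
      have := conn_edge he
      simpa [Pool.Helper49.FK.tip] using this
    have e1' : dv n (x, y) = (x + n + 1, y) := rfl
    have e2' : dv n (x, y - 1) = (x + n + 1, y - 1) := rfl
    constructor
    · intro p hp
      rcases hside p hp with rfl | rfl
      · simp only
        omega
      · simp only
        omega
    · intro p p' hp hp'
      rcases hside p hp with rfl | rfl <;> rcases hside p' hp' with rfl | rfl
      · exact SimpleGraph.Reachable.refl _
      · rw [e1', e2']
        exact hc.symm
      · rw [e1', e2']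
        exact hc
      · exact SimpleGraph.Reachable.refl _

omit hn ho ha in
private lemma side_ray {x : ℤ} {p : ℤ × ℤ} (hp : Side p (((x, 0), false) : Bond)) :
    p = (x, 0) ∨ p = (x - 1, 0) := by
  rcases hp with h | h | h | h
  · simp at h
  · left
    exact (Prod.mk.inj h).1.symm
  · right
    have := (Prod.mk.inj h).1
    rw [Prod.ext_iff] at this
    simp only [e1, Prod.fst_add, Prod.snd_add, add_zero] at this
    exact Prod.ext (by omega) (by omega)
  · simp at h

/-- The left end is joined to the right end. -/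
theorem conn_LR : Conn a (0, 0) (2 * n + 1, 0) := by
  by_contra hno
  have key : ∀ f, SC ω ((-(n : ℤ) - 1, 0), false) f → Brk ω f →
      (¬ (f.2 = false ∧ f.1.2 = 0 ∧ (n : ℤ) < |f.1.1|) ∧ ∀ p, Side p f → Conn a (0, 0) (dv n p)) ∨
        ∃ x : ℤ, f = ((x, 0), false) ∧ x ≤ -(n : ℤ) - 1 := by
    intro f hf
    induction hf with
    | refl =>
      intro _
      exact Or.inr ⟨_, rfl, le_rfl⟩
    | @tail f g hf hfg ih =>
      intro hg
      obtain ⟨hfb, _, p0, hpf, hpg⟩ := hfg
      by_cases hgo : g.2 = false ∧ g.1.2 = 0 ∧ (n : ℤ) < |g.1.1|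
      · -- `g` on a ray
        right
        obtain ⟨⟨x, y⟩, c⟩ := g
        simp only at hgo
        obtain ⟨rfl, rfl, hx⟩ := hgo
        refine ⟨x, rfl, ?_⟩
        rcases lt_abs.1 hx with hx | hx
        · exfalso
          rcases ih hfb with ⟨hf1, hf2⟩ | ⟨x', rfl, hx'⟩
          · have h1 := (inside ho ha hfb hf1).1 p0 hpf
            have h2 := hf2 p0 hpf
            rcases side_ray hpg with h | h
            · rw [h] at h1
              simp only at h1
              omega
            · rw [h] at h1 h2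
              simp only at h1
              have h3 : x = n + 1 := by omega
              apply hno
              have h4 : dv n (x - 1, 0) = (2 * (n : ℤ) + 1, 0) := by
                unfold dv
                exact Prod.ext (by simp only; omega) rfl
              rw [← h4]
              exact h2
          · rcases side_ray hpf with h | h <;> rcases side_ray hpg with h' | h' <;>
            · rw [h] at h'
              have := congrArg Prod.fst h'
              simp only at this
              omega
        · omega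
      · left
        refine ⟨hgo, ?_⟩
        intro p hp
        have h1 := (inside ho ha hg hgo).2 p0 p hpg hp
        refine SimpleGraph.Reachable.trans ?_ h1
        rcases ih hfb with ⟨hf1, hf2⟩ | ⟨x', rfl, hx'⟩
        · exact hf2 p0 hpf
        · have h2 := (inside ho ha hg hgo).1 p0 hpg
          have h3 : p0 = (-(n : ℤ) - 1, 0) := by
            rcases side_ray hpf with h | h
            · rw [h] at h2
              simp only at h2
              rw [h]
              exact Prod.ext (by simp only; omega) rfl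
            · rw [h] at h2
              simp only at h2
              omega
          have h4 : dv n p0 = (0, 0) := by
            rw [h3]
            unfold dv
            exact Prod.ext (by simp only; ring) rfl
          rw [h4]
  rcases key _ (cross ho hn) (ray_brk ho (Or.inr (by omega))) with ⟨h1, _⟩ | ⟨x, h1, h2⟩
  · apply h1
    refine ⟨rfl, rfl, ?_⟩
    simp only
    exact lt_abs.2 (Or.inl (by omega))
  · have := congrArg (fun e : Bond => e.1.1) h1
    simp only at this
    omega

/-- The edges of the unbounded contour are joined to the left end. -/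
theorem conn_L {f : Bond} (hf : SC ω ((-(n : ℤ) - 1, 0), false) f) :
    (f.2 = false ∧ f.1.2 = 0 ∧ (n : ℤ) < |f.1.1|) ∨ ∀ p, Side p f → Conn a (0, 0) (dv n p) := by
  have hLR := conn_LR hn ho ha
  induction hf with
  | refl =>
    left
    refine ⟨rfl, rfl, ?_⟩
    simp only
    exact lt_abs.2 (Or.inr (by omega))
  | @tail f g hf hfg ih =>
    obtain ⟨hfb, hgb, p0, hpf, hpg⟩ := hfg
    by_cases hgo : g.2 = false ∧ g.1.2 = 0 ∧ (n : ℤ) < |g.1.1|
    · left
      exact hgo
    · right
      intro p hp
      have h1 := (inside ho ha hgb hgo).2 p0 p hpg hp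
      refine SimpleGraph.Reachable.trans ?_ h1
      rcases ih with hf1 | hf2
      · have h2 := (inside ho ha hgb hgo).1 p0 hpg
        obtain ⟨⟨x, y⟩, c⟩ := f
        simp only at hf1
        obtain ⟨rfl, rfl, hx⟩ := hf1
        rcases side_ray hpf with h | h
        · rw [h] at h2
          simp only at h2
          have h3 : x = -(n : ℤ) - 1 := by
            rcases lt_abs.1 hx with hx | hx <;> omega
          have h4 : dv n p0 = (0, 0) := by
            rw [h, h3]
            unfold dv
            exact Prod.ext (by simp only; ring) rfl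
          rw [h4]
        · rw [h] at h2
          simp only at h2
          have h3 : x = n + 1 := by
            rcases lt_abs.1 hx with hx | hx <;> omega
          have h4 : dv n p0 = (2 * (n : ℤ) + 1, 0) := by
            rw [h, h3]
            unfold dv
            exact Prod.ext (by simp only; ring) rfl
          rw [h4]
          exact hLR
      · exact hf2 p0 hpf

end

private lemma mem_gam' (hn : 1 ≤ n) (ho : ∀ x ∉ Lam n, ω x = dob x) (t y : ℝ) :
    (t, y) ∈ Gam ω ↔
      (∃ a b : ℤ, (Brk ω ((a, b), true) ∧ SC ω ((a, b), true) ((-(n : ℤ) - 1, 0), false)) ∧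
        t = a + 1 / 2 ∧ |y - b| ≤ 1 / 2) ∨
      ∃ a b : ℤ, (Brk ω ((a, b), false) ∧ SC ω ((a, b), false) ((-(n : ℤ) - 1, 0), false)) ∧
        |t - a| ≤ 1 / 2 ∧ y = b + 1 / 2 := by
  rw [mem_gam]
  constructor
  · rintro ⟨⟨⟨a, b⟩, d⟩, hb, hd, hi⟩
    have hI := (inf_iff ho hn _).1 ⟨hb, hi⟩
    cases d
    · right
      rw [dual_v] at hd
      exact ⟨a, b, hI, hd.1, hd.2⟩
    · left
      rw [dual_h] at hd
      exact ⟨a, b, hI, hd.1, hd.2⟩
  · rintro (⟨a, b, hI, h1, h2⟩ | ⟨a, b, hI, h1, h2⟩)
    · have h3 := (inf_iff ho hn _).2 hI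
      refine ⟨((a, b), true), h3.1, ?_, h3.2⟩
      rw [dual_h]
      exact ⟨h1, h2⟩
    · have h3 := (inf_iff ho hn _).2 hI
      refine ⟨((a, b), false), h3.1, ?_, h3.2⟩
      rw [dual_v]
      exact ⟨h1, h2⟩

private lemma gp_a {x K : ℤ} (hn : 1 ≤ n) (ho : ∀ x ∉ Lam n, ω x = dob x)
    (hb : Brk ω ((x, K), false)) (hc : SC ω ((x, K), false) ((-(n : ℤ) - 1, 0), false))
    (hmax : ∀ j : ℤ, Brk ω ((x, j), false) → SC ω ((x, j), false) ((-(n : ℤ) - 1, 0), false) → j ≤ K)
    {t : ℝ} (ht : |t - x| < 1 / 2) : Gp ω t = K + 1 / 2 := by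
  refine IsGreatest.csSup_eq ⟨?_, ?_⟩
  · exact (mem_gam' hn ho t _).2 (Or.inr ⟨x, K, ⟨hb, hc⟩, ht.le, rfl⟩)
  · intro y hy
    rcases (mem_gam' hn ho t y).1 hy with ⟨a, b, _, h1, _⟩ | ⟨a, b, hb, h1, h2⟩
    · exfalso
      rw [h1, abs_lt] at ht
      have h3 : (-1 : ℝ) < ((a - x : ℤ) : ℝ) := by push_cast; linarith [ht.1]
      have h4 : ((a - x : ℤ) : ℝ) < 0 := by push_cast; linarith [ht.2]
      have h5 : -1 < a - x := by exact_mod_cast h3
      have h6 : a - x < 0 := by exact_mod_cast h4
      omega
    · rw [abs_lt] at ht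
      rw [abs_le] at h1
      have h3 : (-1 : ℝ) < ((a - x : ℤ) : ℝ) := by push_cast; linarith [ht.1, h1.2]
      have h4 : ((a - x : ℤ) : ℝ) < 1 := by push_cast; linarith [ht.2, h1.1]
      have h5 : -1 < a - x := by exact_mod_cast h3
      have h6 : a - x < 1 := by exact_mod_cast h4
      have h7 : a = x := by omega
      rw [h7] at hb
      have h8 : (b : ℝ) ≤ K := by exact_mod_cast hmax b hb.1 hb.2
      rw [h2]
      linarith

private lemma sides (x y : ℤ) : Side (x, y) (((x, y), true) : Bond) ∧ Side (x, y) (((x, y), false) : Bond) ∧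
    Side (x, y) (((x + 1, y), false) : Bond) ∧ Side (x, y) (((x, y + 1), true) : Bond) :=
  ⟨Or.inl rfl, Or.inr (Or.inl rfl), Or.inr (Or.inr (Or.inl (by simp [e1]))),
    Or.inr (Or.inr (Or.inr (by simp [e2])))⟩

private lemma side_a (ho : ∀ x ∉ Lam n, ω x = dob x) {x j : ℤ} {L : Bond}
    (h0 : ∀ i, j ≤ i → ¬ (Brk ω ((x, i), false) ∧ SC ω ((x, i), false) L))
    (h1 : ∀ i, j ≤ i → ¬ (Brk ω ((x + 1, i), false) ∧ SC ω ((x + 1, i), false) L)) :
    ¬ (Brk ω ((x, j), true) ∧ SC ω ((x, j), true) L) := by
  intro hI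
  have hall : ∀ i : ℕ, Brk ω ((x, j + i), true) ∧ SC ω ((x, j + i), true) L := by
    intro i
    induction i with
    | zero => simpa using hI
    | succ i ih =>
      obtain ⟨s1, s2, s3, s4⟩ := sides x (j + i)
      have a2 : ¬ Brk ω ((x, j + i), false) := by
        intro hb
        refine h0 (j + i) (by omega) ⟨hb, ?_⟩
        exact Relation.ReflTransGen.head ⟨hb, ih.1, _, s2, s1⟩ ih.2
      have a3 : ¬ Brk ω ((x + 1, j + i), false) := by
        intro hb
        refine h1 (j + i) (by omega) ⟨hb, ?_⟩
        exact Relation.ReflTransGen.head ⟨hb, ih.1, _, s3, s1⟩ ih.2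
      have a4 : Brk ω ((x, j + i + 1), true) := by
        unfold Brk at a2 a3 ⊢
        have := ih.1
        unfold Brk at this
        simp only [tip, Bool.false_eq_true, if_false, if_true, ne_eq, not_not] at a2 a3 this ⊢
        intro h
        exact this (a2.trans (h.trans a3.symm))
      have e : j + ((i + 1 : ℕ) : ℤ) = j + i + 1 := by push_cast; ring
      rw [e]
      exact ⟨a4, Relation.ReflTransGen.head ⟨a4, ih.1, _, s4, s1⟩ ih.2⟩
  have hbr := (hall (n + j.natAbs + 1)).1
  have hb1 : ((x, j + ((n + j.natAbs + 1 : ℕ) : ℤ)) : ℤ × ℤ) ∉ Lam n := by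
    rw [mem_Lam]
    simp only
    push_cast
    have := neg_abs_le j
    omega
  have hb2 : tip ((x, j + ((n + j.natAbs + 1 : ℕ) : ℤ)), true) ∉ Lam n := by
    rw [mem_Lam]
    simp only [tip, if_true]
    push_cast
    have := neg_abs_le j
    omega
  have := (out_brk ho hbr hb1 hb2).1
  simp at this

private lemma gp_b {x K K' : ℤ} (hn : 1 ≤ n) (ho : ∀ x ∉ Lam n, ω x = dob x)
    (hb : Brk ω ((x, K), false)) (hc : SC ω ((x, K), false) ((-(n : ℤ) - 1, 0), false))
    (hmax : ∀ j : ℤ, Brk ω ((x, j), false) → SC ω ((x, j), false) ((-(n : ℤ) - 1, 0), false) → j ≤ K)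
    (hb' : Brk ω ((x + 1, K'), false)) (hc' : SC ω ((x + 1, K'), false) ((-(n : ℤ) - 1, 0), false))
    (hmax' : ∀ j : ℤ, Brk ω ((x + 1, j), false) →
      SC ω ((x + 1, j), false) ((-(n : ℤ) - 1, 0), false) → j ≤ K') :
    Gp ω ((x : ℝ) + 1 / 2) = max ((K : ℝ) + 1 / 2) ((K' : ℝ) + 1 / 2) := by
  refine IsGreatest.csSup_eq ⟨?_, ?_⟩
  · rcases le_total ((K : ℝ) + 1 / 2) ((K' : ℝ) + 1 / 2) with h | h
    · rw [max_eq_right h]
      refine (mem_gam' hn ho _ _).2 (Or.inr ⟨x + 1, K', ⟨hb', hc'⟩, ?_, rfl⟩)
      push_cast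
      rw [abs_le]
      constructor <;> linarith
    · rw [max_eq_left h]
      refine (mem_gam' hn ho _ _).2 (Or.inr ⟨x, K, ⟨hb, hc⟩, ?_, rfl⟩)
      rw [abs_le]
      constructor <;> linarith
  · intro y hy
    rcases (mem_gam' hn ho _ y).1 hy with ⟨a, b, hb, h1, h2⟩ | ⟨a, b, hb, h1, h2⟩
    · have h3 : (a : ℝ) = x := by linarith
      have h4 : a = x := by exact_mod_cast h3
      rw [h4] at hb
      have h5 : b ≤ max K K' := by
        by_contra hc
        push Not at hc
        rw [max_lt_iff] at hc
        refine side_a ho (x := x) (j := b) ?_ ?_ hb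
        · intro j hj hIj
          have := hmax j hIj.1 hIj.2
          omega
        · intro j hj hIj
          have := hmax' j hIj.1 hIj.2
          omega
      rw [abs_le] at h2
      have h6 : (b : ℝ) ≤ max (K : ℝ) K' := by exact_mod_cast h5
      rw [max_add_add_right]
      linarith [h2.2]
    · rw [abs_le] at h1
      have h3 : (-1 : ℝ) < ((a - x : ℤ) : ℝ) := by push_cast; linarith [h1.2]
      have h4 : ((a - x : ℤ) : ℝ) < 2 := by push_cast; linarith [h1.1]
      have h5 : -1 < a - x := by exact_mod_cast h3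
      have h6 : a - x < 2 := by exact_mod_cast h4
      have h7 : a = x ∨ a = x + 1 := by omega
      rw [h2]
      rcases h7 with h7 | h7
      · rw [h7] at hb
        have h8 : (b : ℝ) ≤ K := by exact_mod_cast hmax b hb.1 hb.2
        refine le_max_of_le_left ?_
        linarith
      · rw [h7] at hb
        have h8 : (b : ℝ) ≤ K' := by exact_mod_cast hmax' b hb.1 hb.2
        refine le_max_of_le_right ?_
        linarith

/-- (G1) The height of the interface over an integer is attained at a broken edge whose dual is joined to the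
left end in the set of the duals of the broken edges. -/
theorem G1 (hn : 1 ≤ n) (ho : ∀ x ∉ Lam n, ω x = dob x) {x : ℤ} (hx : |x| ≤ n) :
    ∃ K : ℤ, |K| ≤ n ∧ Gp ω x = K + 1 / 2 ∧ ω (x, K) ≠ ω (x, K + 1) ∧
      ∀ a : Finset Pool.Helper49.FK.Edge, Cov n ω a →
        ((x + n, K), true) ∈ a ∧ Conn a (0, 0) (x + n, K) ∧ Conn a (0, 0) (x + n + 1, K) := by
  obtain ⟨K, hK, hb, hc, hmax⟩ := top_edge ho hn hx
  refine ⟨K, hK, ?_, hb, ?_⟩
  · refine gp_a hn ho hb hc hmax ?_
    rw [sub_self, abs_zero]
    norm_num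
  · intro a ha
    have hside : ∀ p, Side p (((x, K), false) : Bond) → Conn a (0, 0) (dv n p) := by
      rcases conn_L hn ho ha hc.symm with h | h
      · exfalso
        have := h.2.2
        simp only at this
        omega
      · exact h
    refine ⟨ha.1 x K hx hK hb, ?_, ?_⟩
    · have h1 := hside (x - 1, K) (Or.inr (Or.inr (Or.inl (by simp [e1]))))
      have h2 : dv n (x - 1, K) = (x + n, K) := by
        unfold dv
        exact Prod.ext (by simp only; ring) rfl
      rwa [h2] at h1
    · exact hside (x, K) (Or.inr (Or.inl rfl))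

/-- (G2) The height over a real point is the height over an integer at distance at most `1/2`. -/
theorem G2 (hn : 1 ≤ n) (ho : ∀ x ∉ Lam n, ω x = dob x) {t : ℝ} (ht' : |t| ≤ n) :
    ∃ x : ℤ, |x| ≤ n ∧ |t - x| ≤ 1 / 2 ∧ Gp ω t = Gp ω x := by
  have hint : ∀ {x K : ℤ}, Brk ω ((x, K), false) → SC ω ((x, K), false) ((-(n : ℤ) - 1, 0), false) →
      (∀ j : ℤ, Brk ω ((x, j), false) → SC ω ((x, j), false) ((-(n : ℤ) - 1, 0), false) → j ≤ K) →
      Gp ω x = K + 1 / 2 := by
    intro x K hb hc hmax
    refine gp_a hn ho hb hc hmax ?_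
    rw [sub_self, abs_zero]
    norm_num
  have hr := abs_sub_round t
  rw [abs_le] at ht'
  rcases lt_or_eq_of_le hr with h | h
  · have hxn : |round t| ≤ (n : ℤ) := by
      rw [abs_le]
      rw [abs_lt] at h
      constructor
      · have : (-(n : ℝ) - 1) < ((round t : ℤ) : ℝ) := by linarith [h.1, h.2, ht'.1]
        have h2 : (-(n : ℤ) - 1) < round t := by exact_mod_cast this
        omega
      · have : ((round t : ℤ) : ℝ) < n + 1 := by linarith [h.1, h.2, ht'.2]
        have h2 : round t < (n : ℤ) + 1 := by exact_mod_cast this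
        omega
    obtain ⟨K, hK, hb, hc, hmax⟩ := top_edge ho hn hxn
    refine ⟨round t, hxn, h.le, ?_⟩
    rw [gp_a hn ho hb hc hmax h, hint hb hc hmax]
  · obtain ⟨x, hx⟩ : ∃ x : ℤ, t = x + 1 / 2 := by
      rcases abs_eq (by norm_num : (0 : ℝ) ≤ 1 / 2) |>.1 h with h1 | h1
      · exact ⟨round t, by linarith⟩
      · exact ⟨round t - 1, by push_cast; linarith⟩
    have h1 : -(n : ℤ) ≤ x := by
      have : (-(n : ℝ) - 1) < ((x : ℤ) : ℝ) := by linarith [ht'.1]
      have h2 : (-(n : ℤ) - 1) < x := by exact_mod_cast this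
      omega
    have h2 : x + 1 ≤ (n : ℤ) := by
      have : ((x : ℤ) : ℝ) < n := by linarith [ht'.2]
      have h2 : x < (n : ℤ) := by exact_mod_cast this
      omega
    have hxa : |x| ≤ (n : ℤ) := by
      rw [abs_le]
      constructor <;> omega
    have hxb : |x + 1| ≤ (n : ℤ) := by
      rw [abs_le]
      constructor <;> omega
    obtain ⟨K, hK, hb, hc, hmax⟩ := top_edge ho hn hxa
    obtain ⟨K', hK', hb', hc', hmax'⟩ := top_edge ho hn hxb
    have hG := gp_b hn ho hb hc hmax hb' hc' hmax'
    have g1 : Gp ω (x : ℝ) = K + 1 / 2 := hint hb hc hmax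
    have g2 : Gp ω (((x + 1 : ℤ) : ℝ)) = K' + 1 / 2 := hint hb' hc' hmax'
    rw [hx]
    rcases le_total ((K : ℝ) + 1 / 2) ((K' : ℝ) + 1 / 2) with h3 | h3
    · refine ⟨x + 1, hxb, ?_, ?_⟩
      · push_cast
        rw [abs_le]
        constructor <;> linarith
      · rw [hG, max_eq_right h3, g2]
    · refine ⟨x, hxa, ?_, ?_⟩
      · rw [abs_le]
        constructor <;> linarith
      · rw [hG, max_eq_left h3, g1]

/-- The height over the integers is bounded by `n + 1/2`. -/
theorem gp_abs (hn : 1 ≤ n) (ho : ∀ x ∉ Lam n, ω x = dob x) {x : ℤ} (hx : |x| ≤ n) :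
    |Gp ω x| ≤ n + 1 / 2 := by
  obtain ⟨K, hK, hG, _⟩ := G1 hn ho hx
  rw [hG]
  have h1 : |(K : ℝ)| ≤ n := by exact_mod_cast hK
  rw [abs_le] at h1 ⊢
  constructor <;> linarith [h1.1, h1.2]

end Pool.Helper17.OZG
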