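import Pool.Agent.Helper17.OZG.ES
import Pool.Agent.Helper71.XD.Main

/-!
Project OZ (MP_7e0861_pr): positive magnetisation at `β₁` forces `(e^β₁ - 1)^2 ≥ q`, so for `β > β₁` the dual
random-cluster model has exponential decay.
-/

open Filter Topology

namespace Pool.Helper17.OZG

open Pool.Helper49.FK (Conn gr ncl wt pr prW hom box Arm ring)
open Pool.Agent.Helper49.FL (Lam)
open Pool.Agent.Helper49.QP (magn expec)
open Pool.Helper71.XD (tauW)

/-- The edges of the box of radius `n + 1` with both ends off `Lam n`. -/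
noncomputable def Fn (n : ℕ) : Finset FE :=
  (Pool.Helper49.FK.edges (box (n + 1))).filter fun e => e.1 ∉ Lam n ∧ Pool.Helper49.FK.tip e ∉ Lam n

private lemma mem_box' {n : ℕ} {x : ℤ × ℤ} :
    x ∈ box n ↔ (-(n : ℤ) ≤ x.1 ∧ x.1 ≤ n) ∧ (-(n : ℤ) ≤ x.2 ∧ x.2 ≤ n) := by
  unfold box
  rw [Finset.mem_product, Finset.mem_Icc, Finset.mem_Icc]

private lemma mem_Lam' {n : ℕ} {i : ℤ × ℤ} :
    i ∈ Lam n ↔ (-(n : ℤ) ≤ i.1 ∧ i.1 ≤ n) ∧ (-(n : ℤ) + 1 ≤ i.2 ∧ i.2 ≤ n) := by
  unfold Lam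
  rw [Finset.mem_product, Finset.mem_Icc, Finset.mem_Icc]

private lemma mem_E {n : ℕ} {e : FE} : e ∈ Pool.Agent.Helper49.FL.edges (Lam n) ↔
    e.1 ∈ Lam n ∨ Pool.Helper49.FK.tip e ∈ Lam n := by
  obtain ⟨⟨a, b⟩, c⟩ := e
  unfold Pool.Agent.Helper49.FL.edges Pool.Helper49.FK.tip
  cases c
  · simp only [Finset.mem_union, Finset.mem_product, Finset.mem_image, Finset.mem_singleton,
      Bool.false_eq_true, and_false, false_or, and_true, if_false, Prod.mk.injEq, Prod.exists, mem_Lam']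
    constructor
    · rintro (h | ⟨x, y, h1, h2, h3⟩)
      · exact Or.inl h
      · right
        omega
    · rintro (h | h)
      · exact Or.inl h
      · right
        exact ⟨a, b + 1, h, rfl, by ring⟩
  · simp only [Finset.mem_union, Finset.mem_product, Finset.mem_image, Finset.mem_singleton,
      Bool.true_eq_false, and_false, or_false, and_true, if_true, Prod.mk.injEq, Prod.exists, mem_Lam']
    constructor
    · rintro (h | ⟨x, y, h1, h2, h3⟩)
      · exact Or.inl h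
      · right
        omega
    · rintro (h | h)
      · exact Or.inl h
      · right
        exact ⟨a + 1, b, h, by ring, rfl⟩

private lemma mem_Fn {n : ℕ} {e : FE} : e ∈ Fn n ↔
    (e.1 ∈ box (n + 1) ∧ Pool.Helper49.FK.tip e ∈ box (n + 1)) ∧
      e.1 ∉ Lam n ∧ Pool.Helper49.FK.tip e ∉ Lam n := by
  unfold Fn
  rw [Finset.mem_filter, Pool.Helper49.FK.mem_edges]

private lemma step_h {n : ℕ} {x y : ℤ} (h1 : ((x, y) : ℤ × ℤ) ∈ box (n + 1))
    (h2 : ((x + 1, y) : ℤ × ℤ) ∈ box (n + 1)) (h3 : ((x, y) : ℤ × ℤ) ∉ Lam n)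
    (h4 : ((x + 1, y) : ℤ × ℤ) ∉ Lam n) : Conn (Fn n) (x, y) (x + 1, y) := by
  have h : (((x, y), true) : FE) ∈ Fn n := by
    rw [mem_Fn]
    unfold Pool.Helper49.FK.tip
    simp only [if_true]
    exact ⟨⟨h1, h2⟩, h3, h4⟩
  have := Pool.Helper49.FK.conn_edge h
  simpa [Pool.Helper49.FK.tip] using this

private lemma step_v {n : ℕ} {x y : ℤ} (h1 : ((x, y) : ℤ × ℤ) ∈ box (n + 1))
    (h2 : ((x, y + 1) : ℤ × ℤ) ∈ box (n + 1)) (h3 : ((x, y) : ℤ × ℤ) ∉ Lam n)
    (h4 : ((x, y + 1) : ℤ × ℤ) ∉ Lam n) : Conn (Fn n) (x, y) (x, y + 1) := by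
  have h : (((x, y), false) : FE) ∈ Fn n := by
    rw [mem_Fn]
    unfold Pool.Helper49.FK.tip
    simp only [Bool.false_eq_true, if_false]
    exact ⟨⟨h1, h2⟩, h3, h4⟩
  have := Pool.Helper49.FK.conn_edge h
  simpa [Pool.Helper49.FK.tip] using this

/-- A row segment off `Lam n`. -/
private lemma row {n : ℕ} {y : ℤ} (x : ℤ) (j : ℕ)
    (h : ∀ i : ℤ, x ≤ i → i ≤ x + j → ((i, y) : ℤ × ℤ) ∈ box (n + 1) ∧ ((i, y) : ℤ × ℤ) ∉ Lam n) :
    Conn (Fn n) (x, y) (x + j, y) := by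
  induction j with
  | zero =>
    simp only [Nat.cast_zero, add_zero]
    exact Pool.Helper49.FK.Conn.refl _ _
  | succ j ih =>
    have h1 := ih (fun i hi hi' => h i hi (by push_cast; omega))
    have h2 := h (x + j) (by omega) (by push_cast; omega)
    have h3 := h (x + j + 1) (by omega) (by push_cast; omega)
    have h4 := step_h h2.1 h3.1 h2.2 h3.2
    have h5 : x + ((j + 1 : ℕ) : ℤ) = x + j + 1 := by push_cast; ring
    rw [h5]
    exact h1.trans h4

private lemma col {n : ℕ} {x : ℤ} (y : ℤ) (j : ℕ)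
    (h : ∀ i : ℤ, y ≤ i → i ≤ y + j → ((x, i) : ℤ × ℤ) ∈ box (n + 1) ∧ ((x, i) : ℤ × ℤ) ∉ Lam n) :
    Conn (Fn n) (x, y) (x, y + j) := by
  induction j with
  | zero =>
    simp only [Nat.cast_zero, add_zero]
    exact Pool.Helper49.FK.Conn.refl _ _
  | succ j ih =>
    have h1 := ih (fun i hi hi' => h i hi (by push_cast; omega))
    have h2 := h (y + j) (by omega) (by push_cast; omega)
    have h3 := h (y + j + 1) (by omega) (by push_cast; omega)
    have h4 := step_v h2.1 h3.1 h2.2 h3.2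
    have h5 : y + ((j + 1 : ℕ) : ℤ) = y + j + 1 := by push_cast; ring
    rw [h5]
    exact h1.trans h4

private lemma row' {n : ℕ} {y x x' : ℤ} (hx : x ≤ x')
    (h : ∀ i : ℤ, x ≤ i → i ≤ x' → ((i, y) : ℤ × ℤ) ∈ box (n + 1) ∧ ((i, y) : ℤ × ℤ) ∉ Lam n) :
    Conn (Fn n) (x, y) (x', y) := by
  have h1 := row (n := n) (y := y) x (x' - x).toNat (by
    intro i hi hi'
    rw [Int.toNat_of_nonneg (by omega)] at hi'
    exact h i hi (by omega))
  rw [Int.toNat_of_nonneg (by omega)] at h1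
  have h2 : x + (x' - x) = x' := by ring
  rwa [h2] at h1

private lemma col' {n : ℕ} {x y y' : ℤ} (hy : y ≤ y')
    (h : ∀ i : ℤ, y ≤ i → i ≤ y' → ((x, i) : ℤ × ℤ) ∈ box (n + 1) ∧ ((x, i) : ℤ × ℤ) ∉ Lam n) :
    Conn (Fn n) (x, y) (x, y') := by
  have h1 := col (n := n) (x := x) y (y' - y).toNat (by
    intro i hi hi'
    rw [Int.toNat_of_nonneg (by omega)] at hi'
    exact h i hi (by omega))
  rw [Int.toNat_of_nonneg (by omega)] at h1
  have h2 : y + (y' - y) = y' := by ring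
  rwa [h2] at h1

/-- Every vertex of the box off `Lam n` is joined to the lower left corner. -/
private lemma to_corner {n : ℕ} {x : ℤ × ℤ} (hx : x ∈ box (n + 1)) (hx' : x ∉ Lam n) :
    Conn (Fn n) (-(n : ℤ) - 1, -(n : ℤ) - 1) x := by
  obtain ⟨a, b⟩ := x
  rw [mem_box'] at hx
  rw [mem_Lam'] at hx'
  simp only at hx hx'
  push_cast at hx
  -- left column
  have hleft : ∀ c : ℤ, -(n : ℤ) - 1 ≤ c → c ≤ n + 1 →
      Conn (Fn n) (-(n : ℤ) - 1, -(n : ℤ) - 1) (-(n : ℤ) - 1, c) := by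
    intro c hc hc'
    refine col' hc fun i hi hi' => ⟨?_, ?_⟩
    · rw [mem_box']
      push_cast
      omega
    · rw [mem_Lam']
      simp only
      omega
  by_cases h1 : b ≤ -(n : ℤ) ∨ (n : ℤ) + 1 ≤ b
  · refine (hleft b (by omega) (by omega)).trans (row' (by omega) fun i hi hi' => ⟨?_, ?_⟩)
    · rw [mem_box']
      push_cast
      omega
    · rw [mem_Lam']
      simp only
      omega
  · have h2 : a = -(n : ℤ) - 1 ∨ a = n + 1 := by omega
    rcases h2 with rfl | rfl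
    · exact hleft b (by omega) (by omega)
    · have h3 : Conn (Fn n) (-(n : ℤ) - 1, -(n : ℤ) - 1) ((n : ℤ) + 1, -(n : ℤ) - 1) := by
        refine row' (by omega) fun i hi hi' => ⟨?_, ?_⟩
        · rw [mem_box']
          push_cast
          omega
        · rw [mem_Lam']
          simp only
          omega
      refine h3.trans (col' (by omega) fun i hi hi' => ⟨?_, ?_⟩)
      · rw [mem_box']
        push_cast
        omega
      · rw [mem_Lam']
        simp only
        omega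

theorem wb (n : ℕ) : WB (Lam n) (box (n + 1)) (Fn n) := by
  refine ⟨?_, ?_, ?_, ?_, ?_, ?_⟩
  · intro x hx
    rw [mem_Lam'] at hx
    rw [mem_box']
    push_cast
    omega
  · intro x hx y hy hx' hy'
    exact (to_corner hx hx').symm.trans (to_corner hy hy')
  · refine ⟨((n : ℤ) + 1, 0), ?_, ?_⟩
    · rw [mem_box']
      push_cast
      omega
    · rw [mem_Lam']
      simp only
      omega
  · ext e
    rw [Finset.mem_union, mem_E, mem_Fn, Pool.Helper49.FK.mem_edges]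
    constructor
    · rintro ⟨h1, h2⟩
      by_cases h3 : e.1 ∈ Lam n ∨ Pool.Helper49.FK.tip e ∈ Lam n
      · exact Or.inl h3
      · push Not at h3
        exact Or.inr ⟨⟨h1, h2⟩, h3⟩
    · rintro (h | h)
      · obtain ⟨⟨a, b⟩, c⟩ := e
        unfold Pool.Helper49.FK.tip at h ⊢
        rw [mem_box', mem_box']
        rw [mem_Lam', mem_Lam'] at h
        push_cast
        cases c
        · simp only [Bool.false_eq_true, if_false] at h ⊢
          omega
        · simp only [if_true] at h ⊢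
          omega
      · exact h.1
  · rw [Finset.disjoint_left]
    intro e h1 h2
    rw [mem_E] at h1
    rw [mem_Fn] at h2
    rcases h1 with h1 | h1
    · exact h2.2.1 h1
    · exact h2.2.2 h1
  · intro e he
    exact (mem_Fn.1 he).2

private lemma bdd_magn (k : ℕ) (β : ℝ) : BddBelow (Set.range fun n : ℕ =>
    expec β 1 (Lam n) (fun _ => (0 : Fin (k + 2)))
      (fun ω => if ω (0, 0) = 0 then (1 : ℝ) else if ω (0, 0) = 1 then -1 else 0)) := by
  refine ⟨-1, ?_⟩
  rintro _ ⟨n, rfl⟩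
  have h1 := Pool.Agent.Helper49.QP.expec_mono (β := β) (J := 1) (Λ := Lam n)
    (η := fun _ => (0 : Fin (k + 2))) (F := fun _ => (-1 : ℝ))
    (G := fun ω => if ω (0, 0) = 0 then (1 : ℝ) else if ω (0, 0) = 1 then -1 else 0) (by
      intro ω _
      split_ifs <;> norm_num)
  rw [Pool.Agent.Helper49.QP.expec_const] at h1
  exact h1

theorem magn_le_tauW (k : ℕ) {β : ℝ} (hβ : 0 < β) (m : ℕ) :
    magn k β ≤ tauW ((k : ℝ) + 2) (Real.exp β - 1) m := by
  have hr : 0 < Real.exp β - 1 := by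
    have := Real.add_one_lt_exp hβ.ne'
    linarith
  have hk : (0 : ℝ) ≤ (k : ℝ) := Nat.cast_nonneg k
  have hq : (1 : ℝ) ≤ (k : ℝ) + 2 := by linarith
  have h0 : magn k β ≤ expec β 1 (Lam (2 * m + 1)) (fun _ => (0 : Fin (k + 2)))
      (fun ω => if ω (0, 0) = 0 then (1 : ℝ) else if ω (0, 0) = 1 then -1 else 0) :=
    ciInf_le (bdd_magn k β) (2 * m + 1)
  have hz : ((0, 0) : ℤ × ℤ) ∈ Lam (2 * m + 1) := by
    rw [mem_Lam']
    push_cast
    omega
  have h1 := es_wired (k := k) hβ (wb (2 * m + 1)) hz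
  have h2 : prW ((k : ℝ) + 2) (hom (Real.exp β - 1)) (box (2 * m + 1 + 1)) (Fn (2 * m + 1))
      (fun ω => ∃ y ∈ box (2 * m + 1 + 1), y ∉ Lam (2 * m + 1) ∧ Conn ω (0, 0) y) ≤
      prW ((k : ℝ) + 2) (hom (Real.exp β - 1)) (box (2 * m + 1 + 1)) (Fn (2 * m + 1)) (Arm m (0, 0)) := by
    refine Pool.Helper49.FK.prW_mono_event (by linarith) (fun e => hr.le) _ ?_
    rintro ω _ _ ⟨y, _, hy, hc⟩
    refine Pool.Helper49.FK.arm_of_conn hc ?_
    rw [mem_Lam'] at hy
    push_cast at hy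
    simp only [sub_zero]
    by_contra hlt
    push Not at hlt
    rw [max_lt_iff, abs_lt, abs_lt] at hlt
    apply hy
    omega
  have h3 : prW ((k : ℝ) + 2) (hom (Real.exp β - 1)) (box (2 * m + 1 + 1)) (Fn (2 * m + 1))
      (Arm m (0, 0)) ≤ prW ((k : ℝ) + 2) (hom (Real.exp β - 1)) (Pool.Helper49.FK.bx (0, 0) (2 * m + 1))
        (Pool.Helper71.XD.rg (0, 0) (2 * m)) (Arm m (0, 0)) := by
    refine Pool.Helper71.XD.prW_le_ring hq hr (Pool.Helper49.FK.arm_incr m _) ?_ ?_ ?_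
    · refine Pool.Helper71.XD.Dep_mono ?_ (Pool.Helper49.FK.arm_dep m (0, 0))
      refine Pool.Helper49.FK.edges_mono ?_
      intro x hx
      unfold Pool.Helper49.FK.bx at hx ⊢
      rw [Finset.mem_product, Finset.mem_Icc, Finset.mem_Icc] at hx ⊢
      push_cast at hx ⊢
      omega
    · exact Finset.filter_subset _ _
    · rw [Finset.disjoint_left]
      intro e h4 h5
      rw [mem_Fn] at h4
      rw [Pool.Helper49.FK.mem_edges] at h5
      apply h4.2.1
      rw [mem_Lam']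
      have h6 := h5.1
      unfold Pool.Helper49.FK.bx at h6
      rw [Finset.mem_product, Finset.mem_Icc, Finset.mem_Icc] at h6
      push_cast at h6 ⊢
      omega
  have h4 := Pool.Helper71.XD.prW_ring_tr (q := (k : ℝ) + 2) (ρ := Real.exp β - 1) ((0, 0) : ℤ × ℤ)
    (2 * m) m
  rw [h4] at h3
  rw [h1] at h0
  exact h0.trans (h2.trans h3)

/-- No magnetisation at infinite temperature. -/
theorem magn_zero (k : ℕ) : magn k 0 ≤ 0 := by
  classical
  have h0 : magn k 0 ≤ expec 0 1 (Lam 1) (fun _ => (0 : Fin (k + 2)))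
      (fun ω => if ω (0, 0) = 0 then (1 : ℝ) else if ω (0, 0) = 1 then -1 else 0) :=
    ciInf_le (bdd_magn k 0) 1
  refine h0.trans (le_of_eq ?_)
  have hz : ((0, 0) : ℤ × ℤ) ∈ Lam 1 := by
    rw [mem_Lam']
    push_cast
    norm_num
  have h1 := sum_weight (k := k) (Λ := Lam 1) (β := 0)
    (fun ω => if ω (0, 0) = 0 then (1 : ℝ) else if ω (0, 0) = 1 then -1 else 0)
  have h2 : ∑ A ∈ (Pool.Agent.Helper49.FL.edges (Lam 1)).powerset, (Real.exp 0 - 1) ^ A.card *
      ∑ σ ∈ Finset.univ.filter (fun σ : Lam 1 → Fin (k + 2) => Cst A (g0 (Lam 1) σ)),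
        (if g0 (Lam 1) σ (0, 0) = 0 then (1 : ℝ) else if g0 (Lam 1) σ (0, 0) = 1 then -1 else 0) = 0 := by
    refine Finset.sum_eq_zero fun A hA => ?_
    rcases Finset.eq_empty_or_nonempty A with rfl | hne
    · rw [sum_cst (wb 1) (Finset.empty_subset _) hz, ind_neg, mul_zero, mul_zero]
      rintro ⟨y, _, hy, hc⟩
      rw [Finset.empty_union] at hc
      have h3 := Pool.Helper49.FK.Conn.induct (S := {x : ℤ × ℤ | x = (0, 0)}) hc rfl (by
        intro e he
        obtain ⟨h4, h5⟩ := (mem_Fn.1 he).2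
        simp only [Set.mem_ofPred_eq]
        constructor
        · intro h6
          rw [h6] at h4
          exact absurd hz h4
        · intro h6
          rw [h6] at h5
          exact absurd hz h5)
      rw [Set.mem_ofPred_eq] at h3
      rw [h3] at hy
      exact hy hz
    · rw [Real.exp_zero, sub_self, zero_pow (Finset.card_pos.2 hne).ne', zero_mul]
  have h3 : ∑ σ : Lam 1 → Fin (k + 2), Pool.Agent.Helper49.QP.weight 0 1 (Lam 1) (g0 (Lam 1) σ) *
      (if g0 (Lam 1) σ (0, 0) = 0 then (1 : ℝ) else if g0 (Lam 1) σ (0, 0) = 1 then -1 else 0) = 0 :=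
    h1.trans h2
  have h4 : expec 0 1 (Lam 1) (fun _ => (0 : Fin (k + 2)))
      (fun ω => if ω (0, 0) = 0 then (1 : ℝ) else if ω (0, 0) = 1 then -1 else 0) =
      (∑ σ : Lam 1 → Fin (k + 2), Pool.Agent.Helper49.QP.weight 0 1 (Lam 1) (g0 (Lam 1) σ) *
      (if g0 (Lam 1) σ (0, 0) = 0 then (1 : ℝ) else if g0 (Lam 1) σ (0, 0) = 1 then -1 else 0)) /
      ∑ σ : Lam 1 → Fin (k + 2), Pool.Agent.Helper49.QP.weight 0 1 (Lam 1) (g0 (Lam 1) σ) := rfl
  rw [h4, h3, zero_div]

theorem exp_of_magn' (k : ℕ) {β₁ β : ℝ} (h0 : 0 ≤ β₁) (h : β₁ < β) (hm : 0 < magn k β₁) :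
    Pool.Helper49.FK.ExpW (k + 2) ((k + 2) / (Real.exp β - 1)) := by
  have hβ₁ : 0 < β₁ := by
    rcases h0.eq_or_lt with h1 | h1
    · rw [← h1] at hm
      exact absurd (magn_zero k) (not_le.2 hm)
    · exact h1
  have hr₁ : 0 < Real.exp β₁ - 1 := by
    have := Real.add_one_lt_exp hβ₁.ne'
    linarith
  have hr : Real.exp β₁ - 1 < Real.exp β - 1 := by
    have := Real.exp_lt_exp.2 h
    linarith
  have hk : (0 : ℝ) ≤ (k : ℝ) := Nat.cast_nonneg k
  have hq : (1 : ℝ) ≤ (k : ℝ) + 2 := by linarith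
  have h2 : (k : ℝ) + 2 ≤ (Real.exp β₁ - 1) ^ 2 := by
    by_contra hlt
    push Not at hlt
    have h3 := Pool.Helper71.XD.tau_tendsto hq hr₁ hlt
    have h4 := ge_of_tendsto' h3 (magn_le_tauW k hβ₁)
    exact absurd h4 (not_le.2 hm)
  refine Pool.Helper71.XD.expW hq (div_pos (by linarith) (hr₁.trans hr)) ?_
  have hr0 : 0 < Real.exp β - 1 := hr₁.trans hr
  rw [div_pow, div_lt_iff₀ (pow_pos hr0 2)]
  have h5 : (Real.exp β₁ - 1) ^ 2 < (Real.exp β - 1) ^ 2 := pow_lt_pow_left₀ hr hr₁.le two_ne_zero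
  nlinarith

end Pool.Helper17.OZG
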